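import Mathlib

/-!
# MP_129a2b_co: `r₂(n)/n` tends to infinity (at least like `log log n`)

There are convex `n`-gons in which two different distances both occur at least `K n / 16` times, for every `K` and
every `n ≥ 2^(2^(3K+6))`.  In particular the conjecture of Erdős and Moser (1959) that the most frequent distance
of a convex `n`-gon occurs `O(n)` times fails.

Construction.  All vertices lie near the unit circle, close to two antipodal directions: they are
`(1 - κ² a(p)) e^{iκ(τ(p)+x)}` and `-(1 - κ² b(p)) e^{iκ(τ(p)+x)}` for `p` in a set `P` of size `2^K` and `x` in a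
finite set `X ⊆ [-1/2, 1/2]`.  Such a set is strictly convex as soon as `⟨v, w⟩ < |v|²` for all vertices `v ≠ w`,
which for small `κ` follows from `|a(p) - a(q)| < (τ(p) - τ(q) + x)²/2`, and the same for `b` (`sepK`).  The
distance of two antipodal vertices is determined, up to higher order, by `4 (a(p) + b(q)) + (τ(p) - τ(q) + x)²`
(`edge`).  The data `(τ, a, b)` are built recursively (`par`): from `(A, B)` one makes
`A ∪ (B shifted by A₀ and lowered by ε)` and `(B lowered by ε) ∪ (A shifted by A₀)` with `A₀² = C + 4ε` and `A₀`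
huge; each step keeps all previous near coincidences and creates `2^K` new ones, so `K 2^K / 2` pairs `(p, q)` have
the prescribed distance up to a rotation by a tiny angle.  Finally `X` is a set almost invariant under the
(finitely many) tiny error rotations (`folner`), which makes the coincidences exact; `spread` and some extra points
on the circle adjust the number of vertices to be exactly `n`.
-/

set_option autoImplicit false

namespace Pool.Agent.Results.MP_129a2b_co.Unbounded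

open Filter Topology

lemma par (δ : ℝ) (hδ : 0 < δ) (K : ℕ) : ∃ (P : Type) (_ : Fintype P) (_ : DecidableEq P)
    (τ a b : P → ℝ) (C : ℝ) (E : Finset (P × P)),
    0 < C ∧ Fintype.card P = 2 ^ K ∧ 2 * E.card = K * 2 ^ K ∧
    (∀ e ∈ E, ∃ w : ℝ, 1 ≤ w ∧ w ^ 2 = C - 4 * (a e.1 + b e.2) ∧
      (|(τ e.2 - τ e.1) - w| ≤ δ ∨ |(τ e.1 - τ e.2) - w| ≤ δ)) ∧
    (∀ p q, p ≠ q → ∀ x : ℝ, |x| ≤ 1 → |a p - a q| < (τ p - τ q + x) ^ 2 / 2 ∧
      |b p - b q| < (τ p - τ q + x) ^ 2 / 2) := by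
  induction K with
  | zero =>
    refine ⟨Unit, inferInstance, inferInstance, fun _ => 0, fun _ => 0, fun _ => 0, 1, ∅, one_pos, by simp,
      by simp, by simp, ?_⟩
    intro p q h; exact absurd rfl h
  | succ K ih =>
    obtain ⟨P, _, _, τ, a, b, C, E, hC, hcard, hE, hed, hsep⟩ := ih
    -- a bound
    obtain ⟨R, hR0, hRτ, hRa, hRb⟩ : ∃ R : ℝ, 0 ≤ R ∧ (∀ p, |τ p| ≤ R) ∧ (∀ p, |a p| ≤ R) ∧ (∀ p, |b p| ≤ R) := by
      refine ⟨∑ p, (|τ p| + |a p| + |b p|), Finset.sum_nonneg (fun p _ => by positivity), ?_, ?_, ?_⟩ <;>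
      · intro p
        have := Finset.single_le_sum (f := fun p => |τ p| + |a p| + |b p|)
          (fun p _ => by positivity) (Finset.mem_univ p)
        have h1 := abs_nonneg (τ p)
        have h2 := abs_nonneg (a p)
        have h3 := abs_nonneg (b p)
        linarith
    set A : ℝ := 16 * (2 * R + 1) + 8 * R / δ + C with hA
    have hA16 : 16 * (2 * R + 1) ≤ A := by
      have : 0 ≤ 8 * R / δ := by positivity
      linarith
    have hAδ : 8 * R / δ ≤ A := by
      have : 0 ≤ 16 * (2 * R + 1) := by positivity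
      linarith
    have hApos : 0 < A := by linarith
    set ε : ℝ := (A ^ 2 - C) / 4 with hε
    have key : ∀ p q : P, ∀ x : ℝ, |x| ≤ 1 → ε + 2 * R < (τ p - τ q - A + x) ^ 2 / 2 := by
      intro p q x hx
      have h1 := abs_le.mp (hRτ p)
      have h2 := abs_le.mp (hRτ q)
      have h3 := abs_le.mp hx
      have h4 : A - (2 * R + 1) ≤ -(τ p - τ q - A + x) := by linarith
      have h5 : (A - (2 * R + 1)) ^ 2 ≤ (τ p - τ q - A + x) ^ 2 := by
        have h6 : 0 ≤ A - (2 * R + 1) := by linarith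
        nlinarith
      rw [hε]
      nlinarith [mul_nonneg hR0 hR0, mul_pos hApos hApos,
        mul_nonneg (sub_nonneg.mpr hA16) (sub_nonneg.mpr hA16), mul_nonneg hR0 (sub_nonneg.mpr hA16)]
    have key' : ∀ p q : P, ∀ x : ℝ, |x| ≤ 1 → ε + 2 * R < (A + τ p - τ q + x) ^ 2 / 2 := by
      intro p q x hx
      have := key q p (-x) (by rwa [abs_neg])
      have h2 : (τ q - τ p - A + -x) ^ 2 = (A + τ p - τ q + x) ^ 2 := by ring
      rwa [h2] at this
    have hε0 : 0 ≤ ε := by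
      rw [hε]
      have : C ≤ A := by
        have : 0 ≤ 8 * R / δ := by positivity
        linarith
      nlinarith
    refine ⟨Bool × P, inferInstance, inferInstance, fun p => (if p.1 then A else 0) + τ p.2,
      fun p => if p.1 then ε + b p.2 else a p.2, fun p => if p.1 then a p.2 else ε + b p.2, A ^ 2,
      (E.image (fun e => ((false, e.1), (false, e.2)))) ∪ (E.image (fun e => ((true, e.2), (true, e.1)))) ∪
      ((Finset.univ : Finset P).image (fun p => ((false, p), (true, p)))), by positivity, ?_, ?_, ?_, ?_⟩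
    · simp [hcard, pow_succ, mul_comm]
    · rw [Finset.card_union_of_disjoint, Finset.card_union_of_disjoint, Finset.card_image_of_injective,
        Finset.card_image_of_injective, Finset.card_image_of_injective, Finset.card_univ, hcard]
      · rw [pow_succ]; ring_nf; ring_nf at hE; omega
      · intro p q h; simpa using h
      · rintro ⟨p, q⟩ ⟨p', q'⟩ h; simp at h ⊢; tauto
      · rintro ⟨p, q⟩ ⟨p', q'⟩ h; simp at h ⊢; tauto
      · rw [Finset.disjoint_left]; intro x hx hy; simp only [Finset.mem_image] at hx hy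
        obtain ⟨e, -, he⟩ := hx; obtain ⟨e', -, he'⟩ := hy
        rw [← he] at he'; simp at he'
      · rw [Finset.disjoint_left]; intro x hx hy; simp only [Finset.mem_image, Finset.mem_union] at hx hy
        obtain ⟨e', -, he'⟩ := hy
        rcases hx with ⟨e, -, he⟩ | ⟨e, -, he⟩ <;> (rw [← he] at he'; simp at he')
    · intro e he
      simp only [Finset.mem_union, Finset.mem_image, Finset.mem_univ, true_and] at he
      rcases he with (⟨e', he', rfl⟩ | ⟨e', he', rfl⟩) | ⟨p, rfl⟩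
      · obtain ⟨w, hw1, hw2, hw3⟩ := hed e' he'
        refine ⟨w, hw1, ?_, ?_⟩
        · simp; rw [hw2, hε]; ring
        · simpa using hw3
      · obtain ⟨w, hw1, hw2, hw3⟩ := hed e' he'
        refine ⟨w, hw1, ?_, ?_⟩
        · simp; rw [hw2, hε]; ring
        · simpa using hw3.symm
      · have h1 := abs_le.mp (hRa p)
        have hnn : 1 ≤ A ^ 2 - 8 * a p := by nlinarith
        refine ⟨Real.sqrt (A ^ 2 - 8 * a p), ?_, ?_, ?_⟩
        · exact Real.one_le_sqrt.mpr hnn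
        · rw [Real.sq_sqrt (by linarith)]; simp; ring
        · left
          simp only [if_true, Bool.false_eq_true, if_false]
          set w := Real.sqrt (A ^ 2 - 8 * a p) with hw
          have hw0 : 0 ≤ w := Real.sqrt_nonneg _
          have hww : w ^ 2 = A ^ 2 - 8 * a p := Real.sq_sqrt (by linarith)
          have h3 : (A + τ p - (0 + τ p) - w) * (A + w) = 8 * a p := by nlinarith
          have h4 : |A + τ p - (0 + τ p) - w| * (A + w) = 8 * |a p| := by
            rw [← abs_of_pos (show 0 < A + w by linarith), ← abs_mul, h3, abs_mul]; norm_num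
          have h5 : 8 * |a p| ≤ δ * (A + w) := by
            have h6 : 8 * R ≤ δ * A := by
              rw [div_le_iff₀ hδ] at hAδ; linarith
            have h7 := hRa p
            nlinarith [mul_nonneg hδ.le hw0]
          have h8 : |A + τ p - (0 + τ p) - w| * (A + w) ≤ δ * (A + w) := by rw [h4]; exact h5
          exact le_of_mul_le_mul_right h8 (by linarith)
    · rintro ⟨s, p⟩ ⟨s', q⟩ hne x hx
      have ha1 := abs_le.mp (hRa p)
      have ha2 := abs_le.mp (hRa q)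
      have hb1 := abs_le.mp (hRb p)
      have hb2 := abs_le.mp (hRb q)
      cases s <;> cases s'
      · have hpq : p ≠ q := fun h => hne (by rw [h])
        have := hsep p q hpq x hx
        simpa using this
      · have := key p q x hx
        simp only [if_true, Bool.false_eq_true, if_false]
        have e1 : (0 + τ p - (A + τ q) + x) ^ 2 = (τ p - τ q - A + x) ^ 2 := by ring
        rw [e1]
        constructor <;> rw [abs_lt] <;> constructor <;> linarith
      · have := key' p q x hx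
        simp only [if_true, Bool.false_eq_true, if_false]
        have e1 : (A + τ p - (0 + τ q) + x) ^ 2 = (A + τ p - τ q + x) ^ 2 := by ring
        rw [e1]
        constructor <;> rw [abs_lt] <;> constructor <;> linarith
      · have hpq : p ≠ q := fun h => hne (by rw [h])
        have := hsep p q hpq x hx
        simpa using this.symm

lemma cos_sinc (κ y : ℝ) : Real.cos (κ * y) = 1 - κ ^ 2 * (y ^ 2 * Real.sinc (κ * y / 2) ^ 2 / 2) := by
  have h1 : Real.cos (κ * y) = 1 - 2 * Real.sin (κ * y / 2) ^ 2 := by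
    have := Real.cos_sq (κ * y / 2)
    have h2 := Real.sin_sq_add_cos_sq (κ * y / 2)
    have h3 : 2 * (κ * y / 2) = κ * y := by ring
    rw [h3] at this
    linarith
  have h2 : Real.sin (κ * y / 2) = (κ * y / 2) * Real.sinc (κ * y / 2) := by
    by_cases h : κ * y / 2 = 0
    · rw [h]; simp
    · rw [Real.sinc_of_ne_zero h, ← mul_div_assoc, mul_div_cancel_left₀ _ h]
  rw [h1, h2]; ring

lemma edge (a b C δ w : ℝ) (hδ : 0 < δ) (h1 : (w - δ) ^ 2 < C - 4 * (a + b))
    (h2 : C - 4 * (a + b) < (w + δ) ^ 2) :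
    ∀ᶠ κ in 𝓝[>] (0 : ℝ), ∃ y : ℝ, |y - w| ≤ δ ∧
      (1 - κ ^ 2 * a) ^ 2 + (1 - κ ^ 2 * b) ^ 2 + 2 * (1 - κ ^ 2 * a) * (1 - κ ^ 2 * b) * Real.cos (κ * y)
        = 4 - C * κ ^ 2 := by
  set F : ℝ → ℝ → ℝ := fun κ y => (C - 4 * (a + b)) + κ ^ 2 * (a + b) ^ 2
    - (1 - κ ^ 2 * a) * (1 - κ ^ 2 * b) * (y ^ 2 * Real.sinc (κ * y / 2) ^ 2) with hF
  have hc1 : ∀ y, Continuous (fun κ => F κ y) := by
    intro y; simp only [hF]
    have := Real.continuous_sinc
    fun_prop
  have hc2 : ∀ κ, Continuous (fun y => F κ y) := by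
    intro κ; simp only [hF]
    have := Real.continuous_sinc
    fun_prop
  have e1 : ∀ᶠ κ in 𝓝 (0 : ℝ), 0 < F κ (w - δ) := by
    apply (hc1 (w - δ)).continuousAt.eventually (lt_mem_nhds _)
    simp [hF]; linarith
  have e2 : ∀ᶠ κ in 𝓝 (0 : ℝ), F κ (w + δ) < 0 := by
    apply (hc1 (w + δ)).continuousAt.eventually (gt_mem_nhds _)
    simp [hF]; linarith
  have e3 : ∀ᶠ κ in 𝓝[>] (0 : ℝ), 0 < F κ (w - δ) ∧ F κ (w + δ) < 0 :=
    (e1.and e2).filter_mono nhdsWithin_le_nhds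
  filter_upwards [e3] with κ hκ
  have := intermediate_value_Icc' (show w - δ ≤ w + δ by linarith) (hc2 κ).continuousOn
  obtain ⟨y, hy, hy0⟩ := this (show (0 : ℝ) ∈ Set.Icc _ _ from ⟨hκ.2.le, hκ.1.le⟩)
  refine ⟨y, abs_le.mpr ⟨by linarith [hy.1], by linarith [hy.2]⟩, ?_⟩
  rw [cos_sinc]
  simp only [hF] at hy0
  linear_combination κ ^ 2 * hy0

lemma sepK (a b t : ℝ) (h : ∀ x : ℝ, |x| ≤ 1 → |a - b| < (t + x) ^ 2 / 2) :
    ∀ᶠ κ in 𝓝[>] (0 : ℝ), ∀ x : ℝ, |x| ≤ 1 → (1 - κ ^ 2 * b) * Real.cos (κ * (t + x)) < 1 - κ ^ 2 * a := by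
  set G : ℝ → ℝ → ℝ := fun κ x => a - b - (1 - κ ^ 2 * b) * ((t + x) ^ 2 * Real.sinc (κ * (t + x) / 2) ^ 2 / 2)
    with hG
  have hc : Continuous (fun z : ℝ × ℝ => G z.1 z.2) := by
    simp only [hG]
    have := Real.continuous_sinc
    fun_prop
  have e1 : ∀ᶠ κ in 𝓝 (0 : ℝ), ∀ x ∈ Set.Icc (-1 : ℝ) 1, G κ x < 0 := by
    apply IsCompact.eventually_forall_of_forall_eventually isCompact_Icc
    intro x hx
    apply hc.continuousAt.eventually (gt_mem_nhds _)
    have := h x (abs_le.mpr hx)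
    have h3 := (abs_lt.mp this).2
    simp [hG]; linarith
  filter_upwards [e1.filter_mono nhdsWithin_le_nhds, self_mem_nhdsWithin] with κ hκ hκ0 x hx
  have := hκ x (abs_le.mp hx)
  rw [cos_sinc]
  simp only [hG] at this
  have hκ0' : 0 < κ := hκ0
  have hk2 : 0 < κ ^ 2 := by positivity
  nlinarith [mul_pos hk2 (neg_pos.mpr this)]

lemma cosK (t : ℝ) : ∀ᶠ κ in 𝓝[>] (0 : ℝ), ∀ x : ℝ, |x| ≤ 1 → 0 < Real.cos (κ * (t + x)) := by
  have e1 : ∀ᶠ κ in 𝓝 (0 : ℝ), ∀ x ∈ Set.Icc (-1 : ℝ) 1, 0 < Real.cos (κ * (t + x)) := by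
    apply IsCompact.eventually_forall_of_forall_eventually isCompact_Icc
    intro x hx
    have hc : Continuous (fun z : ℝ × ℝ => Real.cos (z.1 * (t + z.2))) := by fun_prop
    apply hc.continuousAt.eventually (lt_mem_nhds _)
    simp
  filter_upwards [e1.filter_mono nhdsWithin_le_nhds] with κ hκ x hx
  exact hκ x (abs_le.mp hx)

lemma powbound (N : ℕ) : (4 * N ^ 2 + 1 + 1) ^ N < 2 ^ (4 * N ^ 2 + 1) := by
  rcases Nat.eq_zero_or_pos N with h | h
  · subst h; norm_num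
  · have h1 : ∀ n : ℕ, 4 * (n + 1) ^ 2 + 2 ≤ 2 ^ (4 * (n + 1)) := by
      intro n
      induction n with
      | zero => norm_num
      | succ n ih =>
        have e : 2 ^ (4 * (n + 1 + 1)) = 16 * 2 ^ (4 * (n + 1)) := by
          rw [show 4 * (n + 1 + 1) = 4 * (n + 1) + 4 by ring, pow_add]; norm_num; ring
        rw [e]
        nlinarith
    obtain ⟨n, rfl⟩ : ∃ n, N = n + 1 := ⟨N - 1, by omega⟩
    calc (4 * (n + 1) ^ 2 + 1 + 1) ^ (n + 1) ≤ (2 ^ (4 * (n + 1))) ^ (n + 1) := Nat.pow_le_pow_left (h1 n) _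
      _ = 2 ^ (4 * (n + 1) ^ 2) := by rw [← pow_mul]; ring_nf
      _ < 2 ^ (4 * (n + 1) ^ 2 + 1) := Nat.pow_lt_pow_right (by norm_num) (by omega)

lemma folner (N : ℕ) : ∃ δ : ℝ, 0 < δ ∧ ∀ (ι : Type) [Fintype ι] [DecidableEq ι], Fintype.card ι = N →
    ∀ m : ι → ℝ, (∀ i, |m i| ≤ δ) → ∃ X Y : Finset ℝ, Y ⊆ X ∧ Y.Nonempty ∧ X.card ≤ 2 * Y.card ∧
      X.card ≤ 2 ^ (4 * N ^ 2 + 1) ∧
      (∀ y ∈ Y, ∀ i, y + m i ∈ X) ∧ ∀ x ∈ X, |x| ≤ 1 / 4 := by
  obtain ⟨T, hTdef, hT⟩ : ∃ T : ℕ, T = 4 * N ^ 2 + 1 ∧ (T + 1) ^ N < 2 ^ T := ⟨_, rfl, powbound N⟩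
  refine ⟨1 / (4 * ((T + 1) * (N + 1))), by positivity, ?_⟩
  intro ι _ _ hN m hm
  set F : ℕ → Finset ℝ := fun L => (Fintype.piFinset (fun _ : ι => Finset.range (L + 1))).image
    (fun n => ∑ i, (n i : ℝ) * m i) with hF
  have hcard : ∀ L, (F L).card ≤ (L + 1) ^ N := by
    intro L
    refine Finset.card_image_le.trans ?_
    rw [Fintype.card_piFinset]; simp [hN]
  have hne : ∀ L, (F L).Nonempty := by
    intro L
    refine ⟨∑ i, ((0 : ℕ) : ℝ) * m i, ?_⟩
    simp only [hF, Finset.mem_image]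
    exact ⟨fun _ => 0, by simp, rfl⟩
  obtain ⟨L, hLT, hL⟩ : ∃ L, L < T ∧ (F (L + 1)).card ≤ 2 * (F L).card := by
    by_contra hcon
    push Not at hcon
    have : ∀ L, L ≤ T → 2 ^ L ≤ (F L).card := by
      intro L
      induction L with
      | zero => intro _; simpa using (hne 0).card_pos
      | succ L ih =>
        intro hL
        have h1 := ih (by omega)
        have h2 := hcon L (by omega)
        rw [pow_succ]; omega
    have h1 := this T le_rfl
    have h2 := hcard T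
    omega
  refine ⟨F (L + 1), F L, ?_, hne L, hL, ?_, ?_, ?_⟩
  · intro y hy
    simp only [hF, Finset.mem_image, Fintype.mem_piFinset, Finset.mem_range] at hy ⊢
    obtain ⟨n, hn, rfl⟩ := hy
    exact ⟨n, fun i => (hn i).trans (by omega), rfl⟩
  · rw [← hTdef]
    refine (hcard _).trans (le_trans (Nat.pow_le_pow_left ?_ _) hT.le)
    omega
  · intro y hy i
    simp only [hF, Finset.mem_image, Fintype.mem_piFinset, Finset.mem_range] at hy ⊢
    obtain ⟨n, hn, rfl⟩ := hy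
    refine ⟨fun j => n j + (if j = i then 1 else 0), fun j => ?_, ?_⟩
    · have := hn j
      show n j + (if j = i then 1 else 0) < L + 1 + 1
      split_ifs <;> omega
    · push_cast
      simp [add_mul, Finset.sum_add_distrib]
  · intro x hx
    simp only [hF, Finset.mem_image, Fintype.mem_piFinset, Finset.mem_range] at hx
    obtain ⟨n, hn, rfl⟩ := hx
    refine (Finset.abs_sum_le_sum_abs _ _).trans ?_
    have h1 : ∀ i ∈ (Finset.univ : Finset ι), |(n i : ℝ) * m i| ≤ (T + 1) * (1 / (4 * ((T + 1) * (N + 1)))) := by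
      intro i _
      rw [abs_mul]
      have h2 : (n i : ℝ) ≤ T + 1 := by
        have := hn i
        have h3 : n i ≤ T + 1 := by omega
        exact_mod_cast h3
      rw [abs_of_nonneg (Nat.cast_nonneg _)]
      exact mul_le_mul h2 (hm i) (abs_nonneg _) (by positivity)
    refine (Finset.sum_le_sum h1).trans ?_
    rw [Finset.sum_const, Finset.card_univ, hN, nsmul_eq_mul]
    have h5 : (N : ℝ) * ((T + 1) * (1 / (4 * ((T + 1) * (N + 1))))) = (N / (N + 1)) * (1 / 4) := by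
      field_simp
    rw [h5]
    have h6 : (N : ℝ) / (N + 1) ≤ 1 := by
      rw [div_le_one (by positivity)]; linarith
    nlinarith

lemma spread {ι : Type} (m : ι → ℝ) (X Y : Finset ℝ) (hYX : Y ⊆ X) (hinv : ∀ y ∈ Y, ∀ i, y + m i ∈ X)
    (hX : ∀ x ∈ X, |x| ≤ 1 / 4) (t : ℕ) : ∃ X' Y' : Finset ℝ, Y' ⊆ X' ∧ X'.card = t * X.card ∧
      Y'.card = t * Y.card ∧ (∀ y ∈ Y', ∀ i, y + m i ∈ X') ∧ ∀ x ∈ X', |x| ≤ 1 / 2 := by
  classical
  set B : Finset ℝ := ((X ×ˢ X) ×ˢ (Finset.range t ×ˢ Finset.range t)).image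
    (fun z => (z.1.1 - z.1.2) / ((z.2.2 : ℝ) - z.2.1)) with hB
  have hinf : (Set.Ioo (0 : ℝ) (1 / (4 * (t + 1)))).Infinite := Set.Ioo_infinite (by positivity)
  obtain ⟨s, hs, hsB⟩ := hinf.exists_notMem_finset B
  have hinj : Set.InjOn (fun z : ℝ × ℕ => z.1 + z.2 * s) (X ×ˢ Finset.range t : Finset (ℝ × ℕ)) := by
    rintro ⟨x, i⟩ hx ⟨x', i'⟩ hx' h
    simp only [Finset.coe_product, Set.mem_prod, Finset.mem_coe] at hx hx'
    simp only at h
    by_cases hii : i = i'
    · subst hii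
      have : x = x' := by linarith
      rw [this]
    · exfalso
      apply hsB
      rw [hB, Finset.mem_image]
      refine ⟨((x, x'), (i, i')), by simp [hx.1, hx'.1, Finset.mem_range.mp hx.2, Finset.mem_range.mp hx'.2], ?_⟩
      have hne : (i' : ℝ) - i ≠ 0 := by
        intro h0
        apply hii
        have : (i : ℝ) = i' := by linarith
        exact_mod_cast this
      simp only
      rw [div_eq_iff hne]; linarith
  refine ⟨(X ×ˢ Finset.range t).image (fun z => z.1 + z.2 * s), (Y ×ˢ Finset.range t).image (fun z => z.1 + z.2 * s),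
    Finset.image_subset_image (Finset.product_subset_product_left hYX), ?_, ?_, ?_, ?_⟩
  · rw [Finset.card_image_of_injOn hinj, Finset.card_product, Finset.card_range, mul_comm]
  · rw [Finset.card_image_of_injOn, Finset.card_product, Finset.card_range, mul_comm]
    exact hinj.mono (Finset.coe_subset.mpr (Finset.product_subset_product_left hYX))
  · intro y hy i
    rw [Finset.mem_image] at hy ⊢
    obtain ⟨⟨y0, j⟩, hz, rfl⟩ := hy
    rw [Finset.mem_product] at hz
    exact ⟨(y0 + m i, j), Finset.mem_product.mpr ⟨hinv y0 hz.1 i, hz.2⟩, by simp only; ring⟩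
  · intro x hx
    rw [Finset.mem_image] at hx
    obtain ⟨⟨x0, j⟩, hz, rfl⟩ := hx
    rw [Finset.mem_product, Finset.mem_range] at hz
    have h1 := abs_le.mp (hX x0 hz.1)
    have h2 : (j : ℝ) * s ≤ 1 / 4 := by
      have hj : (j : ℝ) ≤ t + 1 := by
        have := hz.2
        have h3 : j ≤ t + 1 := by omega
        exact_mod_cast h3
      have h4 := hs.2
      rw [lt_div_iff₀ (by positivity)] at h4
      have h5 : (j : ℝ) * s ≤ (t + 1) * s := mul_le_mul_of_nonneg_right hj hs.1.le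
      nlinarith
    have h3 : 0 ≤ (j : ℝ) * s := mul_nonneg (Nat.cast_nonneg _) hs.1.le
    simp only
    rw [abs_le]; constructor <;> linarith

/-! ### Definitions of the problem -/

/-- `S` is in strictly convex position: no point of `S` lies in the convex hull of the other points. -/
def ConvexPos (S : Finset ℂ) : Prop :=
  ∀ p ∈ S, p ∉ convexHull ℝ ((S : Set ℂ) \ {p})

open Classical in
/-- The multiplicity of the distance `d` in `S`: the number of unordered pairs of distinct points of `S` at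
distance `d`. -/
noncomputable def mult (S : Finset ℂ) (d : ℝ) : ℕ :=
  (S.offDiag.filter (fun pq => dist pq.1 pq.2 = d)).card / 2

/-- `r₂(n)`: the largest `k` such that some set of `n` points in strictly convex position has two different
distances each of which is realised by at least `k` unordered pairs, i.e. the largest multiplicity of a second
most frequent distance. -/
noncomputable def r₂ (n : ℕ) : ℕ :=
  sSup {k : ℕ | ∃ S : Finset ℂ, S.card = n ∧ ConvexPos S ∧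
    ∃ d₁ d₂ : ℝ, d₁ ≠ d₂ ∧ k ≤ mult S d₁ ∧ k ≤ mult S d₂}

lemma mult_ge (S : Finset ℂ) (d : ℝ) (D : Finset (ℂ × ℂ))
    (hD : ∀ z ∈ D, z.1 ∈ S ∧ z.2 ∈ S ∧ dist z.1 z.2 = d ∧ z.1 ≠ z.2)
    (hsw : ∀ z ∈ D, z.swap ∉ D) : D.card ≤ mult S d := by
  classical
  unfold mult
  rw [Nat.le_div_iff_mul_le (by norm_num)]
  have h1 : (D ∪ D.image Prod.swap).card = D.card * 2 := by
    rw [Finset.card_union_of_disjoint, Finset.card_image_of_injective _ Prod.swap_injective]
    · ring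
    · rw [Finset.disjoint_left]
      intro z hz hz'
      rw [Finset.mem_image] at hz'
      obtain ⟨y, hy, rfl⟩ := hz'
      exact hsw y hy hz
  rw [← h1]
  apply Finset.card_le_card
  intro z hz
  rw [Finset.mem_union, Finset.mem_image] at hz
  rw [Finset.mem_filter, Finset.mem_offDiag]
  rcases hz with hz | ⟨y, hy, rfl⟩
  · obtain ⟨a1, a2, a3, a4⟩ := hD z hz
    exact ⟨⟨a1, a2, a4⟩, a3⟩
  · obtain ⟨a1, a2, a3, a4⟩ := hD y hy
    exact ⟨⟨a2, a1, a4.symm⟩, by rw [Prod.fst_swap, Prod.snd_swap, dist_comm]; exact a3⟩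

/-- the real inner product -/
def ip (z w : ℂ) : ℝ := z.re * w.re + z.im * w.im

lemma convexPos_of_ip {J : Type} [DecidableEq J] (T : Finset J) (f : J → ℂ)
    (h : ∀ i ∈ T, ∀ j ∈ T, i ≠ j → ip (f i) (f j) < ip (f i) (f i)) : ConvexPos (T.image f) := by
  intro p hp hmem
  rw [Finset.mem_image] at hp
  obtain ⟨i, hi, rfl⟩ := hp
  have hconv : Convex ℝ {w : ℂ | ip (f i) w < ip (f i) (f i)} := by
    apply convex_halfSpace_lt
    constructor
    · intro x y; simp [ip]; ring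
    · intro c x; simp [ip]; ring
  have hsub : (((T.image f : Finset ℂ) : Set ℂ) \ {f i}) ⊆ {w : ℂ | ip (f i) w < ip (f i) (f i)} := by
    rintro w ⟨hw, hne⟩
    rw [Finset.mem_coe, Finset.mem_image] at hw
    obtain ⟨j, hj, rfl⟩ := hw
    exact h i hi j hj (fun hij => hne (by rw [hij]; rfl))
  have := convexHull_min hsub hconv hmem
  exact lt_irrefl (ip (f i) (f i)) this

/-- polar coordinates with signed radius -/
noncomputable def pol (r φ : ℝ) : ℂ := ⟨r * Real.cos φ, r * Real.sin φ⟩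

lemma ip_pol (r s φ ψ : ℝ) : ip (pol r φ) (pol s ψ) = r * s * Real.cos (ψ - φ) := by
  rw [Real.cos_sub]; simp [ip, pol]; ring

lemma dist_pol (r s φ ψ : ℝ) :
    dist (pol r φ) (pol s ψ) = Real.sqrt (r ^ 2 + s ^ 2 - 2 * r * s * Real.cos (ψ - φ)) := by
  rw [Complex.dist_eq_re_im]
  congr 1
  rw [Real.cos_sub]
  simp only [pol]
  have h1 := Real.sin_sq_add_cos_sq φ
  have h2 := Real.sin_sq_add_cos_sq ψ
  linear_combination r ^ 2 * h1 + s ^ 2 * h2

theorem config (K n : ℕ) (hn : 2 * (2 ^ K * 2 ^ (4 * (K * 2 ^ K) ^ 2 + 1)) ≤ n) :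
    ∃ S : Finset ℂ, S.card = n ∧ ConvexPos S ∧ ∃ d₁ d₂ : ℝ, d₁ ≠ d₂ ∧ ∃ k : ℕ,
    K * n ≤ 16 * k ∧ k ≤ mult S d₁ ∧ k ≤ mult S d₂ := by
  classical
  obtain ⟨δ₀, hδ₀, hF⟩ := folner (K * 2 ^ K)
  set δ : ℝ := min (δ₀ / 2) (1 / 4) with hδdef
  have hδ : 0 < δ := lt_min (by linarith) (by norm_num)
  have hδ2 : 2 * δ ≤ δ₀ := by
    have := min_le_left (δ₀ / 2) (1 / 4 : ℝ)
    linarith
  have hδ4 : δ ≤ 1 / 4 := min_le_right _ _
  obtain ⟨P, _, _, τ, a, b, C, E, hC, hcard, hE, hed, hsep⟩ := par δ hδ K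
  set γ : Bool → ℝ := fun c => if c then δ ^ 2 else 0 with hγ
  -- the eventual conditions
  have ev1 : ∀ᶠ κ in 𝓝[>] (0 : ℝ), ∀ e : {e : P × P // e ∈ E}, ∀ c : Bool, ∃ m : ℝ, |m| ≤ δ₀ ∧
      (1 - κ ^ 2 * a e.1.1) ^ 2 + (1 - κ ^ 2 * b e.1.2) ^ 2 + 2 * (1 - κ ^ 2 * a e.1.1) * (1 - κ ^ 2 * b e.1.2)
        * Real.cos (κ * (τ e.1.2 - τ e.1.1 + m)) = 4 - (C + γ c) * κ ^ 2 := by
    rw [eventually_all]
    intro e
    rw [eventually_all]
    intro c
    obtain ⟨w, hw1, hw2, hw3⟩ := hed e.1 e.2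
    have hγ0 : 0 ≤ γ c ∧ γ c ≤ δ ^ 2 := by
      have hd2 : 0 ≤ δ ^ 2 := by positivity
      simp only [hγ]; split_ifs
      · exact ⟨hd2, le_rfl⟩
      · exact ⟨le_rfl, hd2⟩
    have h1 : (w - δ) ^ 2 < (C + γ c) - 4 * (a e.1.1 + b e.1.2) := by nlinarith [hγ0.1]
    have h2 : (C + γ c) - 4 * (a e.1.1 + b e.1.2) < (w + δ) ^ 2 := by nlinarith [hγ0.2]
    filter_upwards [edge (a e.1.1) (b e.1.2) (C + γ c) δ w hδ h1 h2] with κ hκ
    obtain ⟨y, hy, hy2⟩ := hκ
    rcases hw3 with h3 | h3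
    · refine ⟨y - (τ e.1.2 - τ e.1.1), ?_, ?_⟩
      · have e1 := abs_le.mp hy
        have e2 := abs_le.mp h3
        rw [abs_le]; constructor <;> linarith
      · rw [← hy2]; congr 4; ring
    · refine ⟨-y - (τ e.1.2 - τ e.1.1), ?_, ?_⟩
      · have e1 := abs_le.mp hy
        have e2 := abs_le.mp h3
        rw [abs_le]; constructor <;> linarith
      · rw [← hy2]
        have : κ * (τ e.1.2 - τ e.1.1 + (-y - (τ e.1.2 - τ e.1.1))) = -(κ * y) := by ring
        rw [this, Real.cos_neg]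
  have ev2 : ∀ᶠ κ in 𝓝[>] (0 : ℝ), ∀ p q : P, p ≠ q → ∀ x : ℝ, |x| ≤ 1 →
      (1 - κ ^ 2 * a q) * Real.cos (κ * (τ q - τ p + x)) < 1 - κ ^ 2 * a p ∧
      (1 - κ ^ 2 * b q) * Real.cos (κ * (τ q - τ p + x)) < 1 - κ ^ 2 * b p := by
    rw [eventually_all]
    intro p
    rw [eventually_all]
    intro q
    by_cases hpq : p = q
    · exact Eventually.of_forall (fun κ h => absurd hpq h)
    · have h1 := sepK (a p) (b := a q) (τ q - τ p) (fun x hx => by
        rw [abs_sub_comm]; exact (hsep q p (Ne.symm hpq) x hx).1)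
      have h2 := sepK (b p) (b := b q) (τ q - τ p) (fun x hx => by
        rw [abs_sub_comm]; exact (hsep q p (Ne.symm hpq) x hx).2)
      filter_upwards [h1, h2] with κ k1 k2 _ x hx
      exact ⟨k1 x hx, k2 x hx⟩
  have ev3 : ∀ᶠ κ in 𝓝[>] (0 : ℝ), ∀ p q : P, ∀ x : ℝ, |x| ≤ 1 → 0 < Real.cos (κ * (τ q - τ p + x)) := by
    rw [eventually_all]
    intro p
    rw [eventually_all]
    intro q
    exact cosK _
  have ev4 : ∀ᶠ κ in 𝓝[>] (0 : ℝ), ∀ p : P, 0 < 1 - κ ^ 2 * a p ∧ 0 < 1 - κ ^ 2 * b p := by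
    rw [eventually_all]
    intro p
    have c1 : Continuous (fun κ : ℝ => 1 - κ ^ 2 * a p) := by fun_prop
    have c2 : Continuous (fun κ : ℝ => 1 - κ ^ 2 * b p) := by fun_prop
    have k1 : ∀ᶠ κ in 𝓝 (0 : ℝ), 0 < 1 - κ ^ 2 * a p :=
      c1.continuousAt.eventually (lt_mem_nhds (by simp))
    have k2 : ∀ᶠ κ in 𝓝 (0 : ℝ), 0 < 1 - κ ^ 2 * b p :=
      c2.continuousAt.eventually (lt_mem_nhds (by simp))
    exact (k1.and k2).filter_mono nhdsWithin_le_nhds
  have ev5 : ∀ᶠ κ in 𝓝[>] (0 : ℝ), 0 < 4 - (C + δ ^ 2) * κ ^ 2 ∧ κ < 1 := by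
    have c1 : Continuous (fun κ : ℝ => 4 - (C + δ ^ 2) * κ ^ 2) := by fun_prop
    have k1 : ∀ᶠ κ in 𝓝 (0 : ℝ), 0 < 4 - (C + δ ^ 2) * κ ^ 2 :=
      c1.continuousAt.eventually (lt_mem_nhds (by simp))
    have k2 : ∀ᶠ κ in 𝓝 (0 : ℝ), κ < 1 := gt_mem_nhds (by norm_num)
    exact (k1.and k2).filter_mono nhdsWithin_le_nhds
  have ev6 : ∀ᶠ κ in 𝓝[>] (0 : ℝ), 0 < κ := self_mem_nhdsWithin
  obtain ⟨κ, q1, q2, q3, q4, ⟨q5, q5'⟩, q6⟩ := (ev1.and (ev2.and (ev3.and (ev4.and (ev5.and ev6))))).exists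
  choose m hm1 hm2 using q1
  obtain ⟨X₀, Y₀, hYX₀, hYne₀, hXY₀, hXc₀, hinv₀, hX₀⟩ := hF ({e : P × P // e ∈ E} × Bool) (by
    simp only [Fintype.card_prod, Fintype.card_coe, Fintype.card_bool]; rw [← hE]; ring)
    (fun i => m i.1 i.2) (fun i => hm1 i.1 i.2)
  set n₁ : ℕ := 2 * (2 ^ K * X₀.card) with hn₁
  have hX₀pos : 0 < X₀.card := hYne₀.card_pos.trans_le (Finset.card_le_card hYX₀)
  have hn₁pos : 0 < n₁ := by positivity
  have hn₁n : n₁ ≤ n := le_trans (by rw [hn₁]; gcongr) hn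
  obtain ⟨X, Y, hYX, hXcard, hYcard, hinv, hX⟩ := spread (fun i : {e : P × P // e ∈ E} × Bool => m i.1 i.2) X₀ Y₀ hYX₀ hinv₀ hX₀ (n / n₁)
  have ht : 1 ≤ n / n₁ := (Nat.one_le_div_iff hn₁pos).mpr hn₁n
  have hPn : Nonempty P := by
    rw [← Fintype.card_pos_iff, hcard]; positivity
  obtain ⟨p₀⟩ := hPn
  obtain ⟨Z, hZ, hZcard⟩ := (show (Set.Icc (-(1 / 2) : ℝ) (1 / 2) \ (X : Set ℝ)).Infinite from
    (Set.Icc_infinite (by norm_num)).sdiff X.finite_toSet).exists_subset_card_eq (n % n₁)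
  -- the points
  set pt : Bool × P × ℝ → ℂ := fun j =>
    pol (if j.1 then 1 - κ ^ 2 * a j.2.1 else -(1 - κ ^ 2 * b j.2.1)) (κ * (τ j.2.1 + j.2.2)) with hpt
  set T : Finset (Bool × P × ℝ) := (Finset.univ ×ˢ (Finset.univ ×ˢ X)) ∪ Z.image (fun z => (true, p₀, z)) with hT
  have hmemT : ∀ s p x, x ∈ X → (s, p, x) ∈ T := by
    intro s p x hx; simp [hT, hx]
  have hTx : ∀ s p x, (s, p, x) ∈ T → |x| ≤ 1 / 2 := by
    intro s p x hx
    simp only [hT, Finset.mem_union, Finset.mem_product, Finset.mem_univ, true_and, Finset.mem_image,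
      Prod.mk.injEq] at hx
    rcases hx with hx | ⟨z, hz, -, -, rfl⟩
    · exact hX x hx
    · exact abs_le.mpr (hZ hz).1
  have hTcard : T.card = n := by
    rw [hT, Finset.card_union_of_disjoint, Finset.card_product, Finset.card_product, Finset.card_univ,
      Finset.card_univ, Fintype.card_bool, hcard, Finset.card_image_of_injective, hZcard, hXcard]
    · have h1 := Nat.div_add_mod n n₁
      calc 2 * (2 ^ K * (n / n₁ * X₀.card)) + n % n₁ = n₁ * (n / n₁) + n % n₁ := by rw [hn₁]; ring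
        _ = n := h1
    · intro z z' h; simpa using h
    · rw [Finset.disjoint_left]
      intro j hj hj'
      rw [Finset.mem_image] at hj'
      obtain ⟨z, hz, rfl⟩ := hj'
      simp only [Finset.mem_product, Finset.mem_univ, true_and] at hj
      exact (hZ hz).2 hj
  have hip : ∀ i ∈ T, ∀ j ∈ T, i ≠ j → ip (pt i) (pt j) < ip (pt i) (pt i) := by
    rintro ⟨s, p, x⟩ hi ⟨s', p', x'⟩ hj hne
    have hxx : |x' - x| ≤ 1 := by
      have e1 := abs_le.mp (hTx _ _ _ hi)
      have e2 := abs_le.mp (hTx _ _ _ hj)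
      rw [abs_le]; constructor <;> linarith
    simp only [hpt, ip_pol, sub_self, Real.cos_zero, mul_one]
    have harg : κ * (τ p' + x') - κ * (τ p + x) = κ * (τ p' - τ p + (x' - x)) := by ring
    rw [harg]
    have hcos1 : p = p' → s = s' → Real.cos (κ * (τ p' - τ p + (x' - x))) < 1 := by
      intro hp hs
      have hxne : x' - x ≠ 0 := by
        intro h0
        apply hne
        have : x' = x := by linarith
        rw [hp, hs, this]
      have hz : κ * (τ p' - τ p + (x' - x)) = κ * (x' - x) := by rw [hp]; ring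
      rw [hz]
      refine lt_of_le_of_ne (Real.cos_le_one _) (fun hc => ?_)
      have hb : |κ * (x' - x)| ≤ 1 := by
        rw [abs_mul, abs_of_pos q6]
        nlinarith [abs_nonneg (x' - x)]
      have hb' := abs_le.mp hb
      have hpi := Real.pi_gt_three
      rw [Real.cos_eq_one_iff_of_lt_of_lt (by linarith) (by linarith)] at hc
      rcases mul_eq_zero.mp hc with h | h
      · linarith
      · exact hxne h
    have hap := q4 p
    have hap' := q4 p'
    cases s <;> cases s'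
    · simp only [Bool.false_eq_true, if_false]
      by_cases hp : p = p'
      · have h1 := hcos1 hp rfl
        rw [← hp] at h1 ⊢
        nlinarith [mul_pos (mul_pos hap.2 hap.2) (sub_pos.mpr h1)]
      · have h1 := (q2 p p' hp (x' - x) hxx).2
        nlinarith [mul_pos hap.2 (sub_pos.mpr h1)]
    · simp only [Bool.false_eq_true, if_false, if_true]
      have h1 := q3 p p' (x' - x) hxx
      nlinarith [mul_pos (mul_pos hap.2 hap'.1) h1, mul_pos hap.2 hap.2]
    · simp only [Bool.false_eq_true, if_false, if_true]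
      have h1 := q3 p p' (x' - x) hxx
      nlinarith [mul_pos (mul_pos hap.1 hap'.2) h1, mul_pos hap.1 hap.1]
    · simp only [if_true]
      by_cases hp : p = p'
      · have h1 := hcos1 hp rfl
        rw [← hp] at h1 ⊢
        nlinarith [mul_pos (mul_pos hap.1 hap.1) (sub_pos.mpr h1)]
      · have h1 := (q2 p p' hp (x' - x) hxx).1
        nlinarith [mul_pos hap.1 (sub_pos.mpr h1)]
  have hinj : ∀ i ∈ T, ∀ j ∈ T, pt i = pt j → i = j := by
    intro i hi j hj h
    by_contra hne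
    have := hip i hi j hj hne
    rw [← h] at this
    exact lt_irrefl _ this
  have hmult : ∀ c : Bool, E.card * Y.card ≤ mult (T.image pt) (Real.sqrt (4 - (C + γ c) * κ ^ 2)) := by
    intro c
    set D : Finset (ℂ × ℂ) := ((Finset.univ : Finset {e : P × P // e ∈ E}) ×ˢ Y).image
      (fun ey => (pt (true, ey.1.1.1, ey.2), pt (false, ey.1.1.2, ey.2 + m ey.1 c))) with hD
    have hDcard : D.card = E.card * Y.card := by
      rw [hD, Finset.card_image_of_injOn, Finset.card_product, Finset.card_univ, Fintype.card_coe]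
      rintro ⟨e, y⟩ hey ⟨e', y'⟩ hey' h
      have hy : y ∈ Y := by simpa using hey
      have hy' : y' ∈ Y := by simpa using hey'
      simp only [Prod.mk.injEq] at h
      have h1 := hinj _ (hmemT _ _ _ (hYX hy)) _ (hmemT _ _ _ (hYX hy')) h.1
      have h2 := hinj _ (hmemT _ _ _ (hinv y hy (e, c))) _ (hmemT _ _ _ (hinv y' hy' (e', c))) h.2
      simp only [Prod.mk.injEq, true_and] at h1 h2
      have he : e = e' := Subtype.ext (Prod.ext h1.1 h2.1)
      rw [he, h1.2]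
    rw [← hDcard]
    apply mult_ge
    · intro z hz
      rw [hD, Finset.mem_image] at hz
      obtain ⟨⟨e, y⟩, hey, rfl⟩ := hz
      have hy : y ∈ Y := by simpa using hey
      have m1 := hmemT true e.1.1 y (hYX hy)
      have m2 := hmemT false e.1.2 _ (hinv y hy (e, c))
      refine ⟨Finset.mem_image_of_mem _ m1, Finset.mem_image_of_mem _ m2, ?_, ?_⟩
      · simp only [hpt, dist_pol, if_true, Bool.false_eq_true, if_false]
        congr 1
        rw [← hm2 e c]
        have harg : κ * (τ e.1.2 + (y + m e c)) - κ * (τ e.1.1 + y) = κ * (τ e.1.2 - τ e.1.1 + m e c) := by ring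
        rw [harg]; ring
      · intro h
        have := hinj _ m1 _ m2 h
        simp at this
    · intro z hz hz'
      rw [hD, Finset.mem_image] at hz hz'
      obtain ⟨⟨e, y⟩, hey, rfl⟩ := hz
      obtain ⟨⟨e', y'⟩, hey', h⟩ := hz'
      have hy : y ∈ Y := by simpa using hey
      have hy' : y' ∈ Y := by simpa using hey'
      simp only [Prod.swap_prod_mk, Prod.mk.injEq] at h
      have := hinj _ (hmemT true e'.1.1 y' (hYX hy')) _ (hmemT false e.1.2 _ (hinv y hy (e, c))) h.1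
      simp at this
  refine ⟨T.image pt, ?_, convexPos_of_ip T pt hip, _, _, ?_, E.card * Y.card, ?_, hmult true,
    hmult false⟩
  · rw [Finset.card_image_of_injOn, hTcard]
    intro i hi j hj h
    exact hinj i hi j hj h
  · intro h
    have h2 := congrArg (fun z : ℝ => z ^ 2) h
    simp only [hγ, if_true, Bool.false_eq_true, if_false] at h2
    have hk2 : 0 < κ ^ 2 := by positivity
    have hdk : 0 < δ ^ 2 * κ ^ 2 := by positivity
    rw [Real.sq_sqrt q5.le, Real.sq_sqrt (by nlinarith)] at h2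
    nlinarith
  · have h1 : n < n₁ * (n / n₁ + 1) := Nat.lt_mul_div_succ n hn₁pos
    have h2 : n ≤ n₁ * (2 * (n / n₁)) := h1.le.trans (Nat.mul_le_mul_left _ (by omega))
    calc K * n ≤ K * (n₁ * (2 * (n / n₁))) := Nat.mul_le_mul_left _ h2
      _ = K * (2 * (2 ^ K * X₀.card) * (2 * (n / n₁))) := by rw [hn₁]
      _ ≤ K * (2 * (2 ^ K * (2 * Y₀.card)) * (2 * (n / n₁))) := by gcongr
      _ = 8 * ((K * 2 ^ K) * (n / n₁ * Y₀.card)) := by ring
      _ = 8 * ((2 * E.card) * Y.card) := by rw [hE, hYcard]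
      _ = 16 * (E.card * Y.card) := by ring

lemma size_bound (K : ℕ) : 2 * (2 ^ K * 2 ^ (4 * (K * 2 ^ K) ^ 2 + 1)) ≤ 2 ^ (2 ^ (3 * K + 6)) := by
  have h1 : K ^ 2 ≤ 4 * 2 ^ K := by
    induction K with
    | zero => norm_num
    | succ K ih =>
      rcases Nat.lt_or_ge K 3 with h | h
      · interval_cases K <;> norm_num
      · rw [pow_succ 2 K]; nlinarith
  have h2 : K + 1 ≤ 2 ^ K := Nat.lt_two_pow_self
  have h3 : (2 : ℕ) ^ (3 * K + 6) = 64 * (2 ^ K * 2 ^ K * 2 ^ K) := by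
    rw [pow_add, mul_comm 3 K, pow_mul]; ring
  have h4 : 1 ≤ 2 ^ K := Nat.one_le_two_pow
  have h5 : 2 * (2 ^ K * 2 ^ (4 * (K * 2 ^ K) ^ 2 + 1)) = 2 ^ (K + 4 * (K * 2 ^ K) ^ 2 + 2) := by
    rw [pow_add, pow_add, pow_add]; ring
  rw [h5]
  apply Nat.pow_le_pow_right (by norm_num)
  rw [h3]
  have h6 : 4 * (K * 2 ^ K) ^ 2 ≤ 16 * (2 ^ K * 2 ^ K * 2 ^ K) := by
    calc 4 * (K * 2 ^ K) ^ 2 = 4 * K ^ 2 * (2 ^ K * 2 ^ K) := by ring
      _ ≤ 4 * (4 * 2 ^ K) * (2 ^ K * 2 ^ K) := by gcongr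
      _ = 16 * (2 ^ K * 2 ^ K * 2 ^ K) := by ring
  have h7 : 2 ^ K ≤ 2 ^ K * 2 ^ K * 2 ^ K := by
    calc 2 ^ K = 2 ^ K * 1 * 1 := by ring
      _ ≤ 2 ^ K * 2 ^ K * 2 ^ K := by gcongr
  omega

/-- `r₁(n)`: the largest multiplicity of a distance in a set of `n` points in strictly convex position. -/
noncomputable def r₁ (n : ℕ) : ℕ :=
  sSup {k : ℕ | ∃ S : Finset ℂ, S.card = n ∧ ConvexPos S ∧ ∃ d : ℝ, k ≤ mult S d}

lemma mult_le (S : Finset ℂ) (d : ℝ) : mult S d ≤ S.card * S.card := by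
  unfold mult
  refine (Nat.div_le_self _ _).trans ((Finset.card_filter_le _ _).trans ?_)
  rw [Finset.offDiag_card]
  exact Nat.sub_le _ _

lemma r₂_le_r₁ (n : ℕ) : r₂ n ≤ r₁ n := by
  unfold r₂ r₁
  rcases Set.eq_empty_or_nonempty {k : ℕ | ∃ S : Finset ℂ, S.card = n ∧ ConvexPos S ∧
    ∃ d₁ d₂ : ℝ, d₁ ≠ d₂ ∧ k ≤ mult S d₁ ∧ k ≤ mult S d₂} with h | h
  · rw [h]; simp
  · apply csSup_le_csSup _ h
    · rintro k ⟨S, h1, h2, d₁, d₂, -, h3, -⟩
      exact ⟨S, h1, h2, d₁, h3⟩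
    · refine ⟨n * n, ?_⟩
      rintro k' ⟨S', hS', -, d, hk'⟩
      have := mult_le S' d
      rw [hS'] at this
      exact hk'.trans this

theorem main : ∀ K n : ℕ, 2 ^ (2 ^ (3 * K + 6)) ≤ n → K * n ≤ 16 * r₂ n := by
  intro K n hn
  obtain ⟨S, hS, hconv, d₁, d₂, hd, k, hk, hk1, hk2⟩ := config K n ((size_bound K).trans hn)
  refine hk.trans (Nat.mul_le_mul_left _ ?_)
  refine le_csSup ?_ ⟨S, hS, hconv, d₁, d₂, hd, hk1, hk2⟩
  refine ⟨n * n, ?_⟩
  rintro k' ⟨S', hS', -, d, -, -, hk', -⟩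
  have := mult_le S' d
  rw [hS'] at this
  exact hk'.trans this

lemma loglog : ∀ᶠ n : ℕ in atTop, (1 / 96 : ℝ) * n * Real.log (Real.log n) ≤ r₂ n := by
  filter_upwards [eventually_ge_atTop (2 ^ (2 ^ 20))] with n hn
  have hn0 : 0 < n := lt_of_lt_of_le (by positivity) hn
  set M := Nat.log 2 n with hM
  set L := Nat.log 2 M with hL
  have hM20 : 2 ^ 20 ≤ M := by
    rw [hM]; exact (Nat.le_log_iff_pow_le (by norm_num) hn0.ne').mpr hn
  have hM0 : 0 < M := lt_of_lt_of_le (by positivity) hM20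
  have hL20 : 20 ≤ L := by
    rw [hL]; exact (Nat.le_log_iff_pow_le (by norm_num) hM0.ne').mpr hM20
  obtain ⟨K, hK1, hK2⟩ : ∃ K : ℕ, 3 * K + 6 ≤ L ∧ L ≤ 3 * K + 8 := ⟨(L - 6) / 3, by omega, by omega⟩
  have h1 : 2 ^ (3 * K + 6) ≤ M :=
    (Nat.pow_le_pow_right (by norm_num) hK1).trans (Nat.pow_log_le_self 2 hM0.ne')
  have h2 : 2 ^ (2 ^ (3 * K + 6)) ≤ n :=
    (Nat.pow_le_pow_right (by norm_num) h1).trans (Nat.pow_log_le_self 2 hn0.ne')
  have h3 : (K : ℝ) * n ≤ 16 * r₂ n := by exact_mod_cast main K n h2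
  have hl2 : Real.log 2 ≤ 1 := by
    have := Real.log_two_lt_d9; linarith
  have hl20 : 0 < Real.log 2 := Real.log_pos (by norm_num)
  have h4 : Real.log n ≤ (M : ℝ) + 1 := by
    have h5 : n ≤ 2 ^ (M + 1) := (Nat.lt_pow_succ_log_self (by norm_num) n).le
    have h6 : (n : ℝ) ≤ 2 ^ (M + 1) := by exact_mod_cast h5
    calc Real.log n ≤ Real.log (2 ^ (M + 1)) := Real.log_le_log (by exact_mod_cast hn0) h6
      _ = ((M : ℝ) + 1) * Real.log 2 := by rw [Real.log_pow]; push_cast; ring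
      _ ≤ ((M : ℝ) + 1) * 1 := by gcongr
      _ = (M : ℝ) + 1 := by ring
  have hlogn : 0 < Real.log n := Real.log_pos (by
    have : 1 < n := lt_of_lt_of_le (Nat.one_lt_two_pow (by positivity)) hn
    exact_mod_cast this)
  have h7 : Real.log (Real.log n) ≤ (L : ℝ) + 1 := by
    have h5 : M + 1 ≤ 2 ^ (L + 1) := Nat.lt_pow_succ_log_self (by norm_num) M
    have h6 : (M : ℝ) + 1 ≤ 2 ^ (L + 1) := by exact_mod_cast h5
    calc Real.log (Real.log n) ≤ Real.log (2 ^ (L + 1)) := Real.log_le_log hlogn (h4.trans h6)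
      _ = ((L : ℝ) + 1) * Real.log 2 := by rw [Real.log_pow]; push_cast; ring
      _ ≤ ((L : ℝ) + 1) * 1 := by gcongr
      _ = (L : ℝ) + 1 := by ring
  have hKR : (L : ℝ) ≤ 3 * K + 8 := by exact_mod_cast hK2
  have hLR : (20 : ℝ) ≤ L := by exact_mod_cast hL20
  have hnR : (0 : ℝ) < n := by exact_mod_cast hn0
  have h8 : (1 / 96 : ℝ) * Real.log (Real.log n) ≤ (K : ℝ) / 16 := by linarith
  calc (1 / 96 : ℝ) * n * Real.log (Real.log n) = n * ((1 / 96 : ℝ) * Real.log (Real.log n)) := by ring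
    _ ≤ n * ((K : ℝ) / 16) := mul_le_mul_of_nonneg_left h8 hnR.le
    _ ≤ r₂ n := by linarith

/-- **`r₂(n) ≥ K n / 16` for all `n ≥ 2^(2^(3K+6))`**, so `r₂(n) ≥ (1/96) n log log n` for all large `n`; and as
`r₁ ≥ r₂`, there is no constant `c` with `r₁(n) ≤ c n` for all `n` (Erdős–Moser). -/
theorem result :
    (∀ K n : ℕ, 2 ^ (2 ^ (3 * K + 6)) ≤ n → K * n ≤ 16 * r₂ n) ∧
    (∀ᶠ n : ℕ in atTop, (1 / 96 : ℝ) * n * Real.log (Real.log n) ≤ r₂ n) ∧
    (∀ n, r₂ n ≤ r₁ n) ∧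
    ¬ ∃ c : ℝ, ∀ n : ℕ, (r₁ n : ℝ) ≤ c * n := by
  refine ⟨main, loglog, r₂_le_r₁, ?_⟩
  rintro ⟨c, hc⟩
  obtain ⟨K, hK⟩ := exists_nat_gt (16 * c)
  have h1 : (K : ℝ) * ((2 ^ (2 ^ (3 * K + 6)) : ℕ) : ℝ) ≤ 16 * r₂ (2 ^ (2 ^ (3 * K + 6))) := by
    exact_mod_cast main K _ le_rfl
  have h2 : (r₂ (2 ^ (2 ^ (3 * K + 6))) : ℝ) ≤ r₁ (2 ^ (2 ^ (3 * K + 6))) := by exact_mod_cast r₂_le_r₁ _
  have h3 := hc (2 ^ (2 ^ (3 * K + 6)))
  have h4 : (0 : ℝ) < ((2 ^ (2 ^ (3 * K + 6)) : ℕ) : ℝ) := by exact_mod_cast Nat.pos_of_ne_zero (by positivity)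
  nlinarith

end Pool.Agent.Results.MP_129a2b_co.Unbounded
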